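import Pool.Agent.Helper26.UW.Pow
import Mathlib

/-!
# UW-T2, general part: the diagonal of `|R P^k|²`
-/

set_option autoImplicit false
open MeasureTheory Set Filter Topology

namespace Pool.Agent.Helper26.UW
open Pool.Agent.Helper60.UV (Rr Vr Ar)

variable {Q : Finset ℕ} {r a : ℕ → ℝ}

/-- `s^a/a! + s^(a-1)/(a-1)!` -/
noncomputable def ee (s : ℝ) : ℕ → ℝ
  | 0 => 1
  | (a + 1) => s ^ (a + 1) / (a + 1).factorial + s ^ a / a.factorial

lemma eval_gp (p a : ℕ) (s : ℝ) : (gp r p a).eval s = |r p| ^ a * ee s a := by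
  cases a with
  | zero => simp [gp, ee]
  | succ a =>
    simp only [gp, ee, Polynomial.eval_mul, Polynomial.eval_C, Polynomial.eval_add, Polynomial.eval_pow, Polynomial.eval_X]
    ring

lemma ee_nonneg {s : ℝ} (hs : 0 ≤ s) (a : ℕ) : 0 ≤ ee s a := by
  cases a with
  | zero => simp [ee]
  | succ a => simp only [ee]; positivity

lemma ee_one (s : ℝ) : ee s 1 = 1 + s := by
  simp only [ee, zero_add, pow_one, Nat.factorial, Nat.cast_one, div_one, pow_zero, mul_one]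
  ring

lemma ee_two {s : ℝ} (hs : 0 ≤ s) (hs1 : s ≤ 1) (a : ℕ) : ee s (a + 2) ≤ 3 / 2 := by
  simp only [ee]
  have h1 : s ^ (a + 1 + 1) / ((a + 1 + 1).factorial : ℝ) ≤ 1 / 2 := by
    have h2 : (2:ℝ) ≤ (a + 1 + 1).factorial := by
      have : 2 ≤ (a + 1 + 1).factorial := by
        calc 2 = Nat.factorial 2 := rfl
          _ ≤ (a + 1 + 1).factorial := Nat.factorial_le (by omega)
      exact_mod_cast this
    rw [div_le_div_iff₀ (by positivity) (by norm_num)]
    have := pow_le_one₀ (n := a + 1 + 1) hs hs1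
    linarith
  have h2 : s ^ (a + 1) / ((a + 1).factorial : ℝ) ≤ 1 := by
    rw [div_le_one (by positivity)]
    have h3 : (1:ℝ) ≤ (a + 1).factorial := by exact_mod_cast Nat.one_le_iff_ne_zero.mpr (Nat.factorial_ne_zero _)
    exact (pow_le_one₀ hs hs1).trans h3
  linarith

/-- the local factor. -/
lemma loc {s x : ℝ} (hs : 0 ≤ s) (hs1 : s ≤ 1) (hx : 0 ≤ x) (hx1 : x ≤ 1 / 2) :
    Summable (fun a : ℕ => x ^ a * ee s a ^ 2) ∧
    ∑' a : ℕ, x ^ a * ee s a ^ 2 ≤ Real.exp ((1 + s) ^ 2 * x + 9 / 2 * x ^ 2) := by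
  have hg : Summable (fun a : ℕ => x ^ a) := summable_geometric_of_lt_one hx (by linarith)
  have hle : ∀ a : ℕ, x ^ (a + 2) * ee s (a + 2) ^ 2 ≤ 9 / 4 * x ^ 2 * x ^ a := by
    intro a
    have h1 := ee_two hs hs1 a
    have h2 := ee_nonneg hs (a + 2)
    have h3 : ee s (a + 2) ^ 2 ≤ 9 / 4 := by nlinarith
    calc x ^ (a + 2) * ee s (a + 2) ^ 2 ≤ x ^ (a + 2) * (9 / 4) := by gcongr
      _ = 9 / 4 * x ^ 2 * x ^ a := by ring
  have hs2 : Summable (fun a : ℕ => x ^ (a + 2) * ee s (a + 2) ^ 2) :=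
    Summable.of_nonneg_of_le (fun a => by positivity) hle (hg.mul_left _)
  have hsum : Summable (fun a : ℕ => x ^ a * ee s a ^ 2) := (summable_nat_add_iff 2).mp hs2
  refine ⟨hsum, ?_⟩
  have h1 := hsum.sum_add_tsum_nat_add 2
  rw [← h1, Finset.sum_range_succ, Finset.sum_range_one, pow_zero, pow_one, ee_one]
  have h2 : ∑' a : ℕ, x ^ (a + 2) * ee s (a + 2) ^ 2 ≤ 9 / 2 * x ^ 2 := by
    calc ∑' a : ℕ, x ^ (a + 2) * ee s (a + 2) ^ 2 ≤ ∑' a : ℕ, 9 / 4 * x ^ 2 * x ^ a :=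
          hs2.tsum_le_tsum hle (hg.mul_left _)
      _ = 9 / 4 * x ^ 2 * (1 - x)⁻¹ := by rw [tsum_mul_left, tsum_geometric_of_lt_one hx (by linarith)]
      _ ≤ 9 / 4 * x ^ 2 * 2 := by
          gcongr
          rw [inv_le_comm₀ (by linarith) (by norm_num)]
          linarith
      _ = 9 / 2 * x ^ 2 := by ring
  have h3 : ee s 0 = 1 := rfl
  have h4 := Real.add_one_le_exp ((1 + s) ^ 2 * x + 9 / 2 * x ^ 2)
  rw [h3]
  linarith

lemma HP_one : HP Q r 1 = 1 := by
  unfold HP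
  refine Finset.prod_eq_one fun p _ => ?_
  rw [Nat.factorization_one]
  rfl

lemma HP_mul {m n : ℕ} (h : Nat.Coprime m n) (hm : m ≠ 0) (hn : n ≠ 0) : HP Q r (m * n) = HP Q r m * HP Q r n := by
  unfold HP
  rw [← Finset.prod_mul_distrib]
  refine Finset.prod_congr rfl fun p _ => ?_
  rw [Nat.factorization_mul hm hn, Finsupp.add_apply]
  by_cases hp : p.Prime
  · by_cases hd : p ∣ m
    · have h0 : n.factorization p = 0 := by
        apply Nat.factorization_eq_zero_of_not_dvd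
        intro hd2
        exact hp.one_lt.ne' (Nat.dvd_one.mp (h ▸ Nat.dvd_gcd hd hd2))
      rw [h0, add_zero]
      simp [gp]
    · rw [Nat.factorization_eq_zero_of_not_dvd hd, zero_add]
      simp [gp]
  · rw [Nat.factorization_eq_zero_of_not_prime m hp, zero_add]
    simp [gp]

lemma HP_pow (hQ : ∀ p ∈ Q, p.Prime) {p : ℕ} (hp : p.Prime) (b : ℕ) :
    HP Q r (p ^ b) = if p ∈ Q then gp r p b else 1 := by
  classical
  unfold HP
  have h1 : ∀ q, (p ^ b).factorization q = if q = p then b else 0 := by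
    intro q
    rw [hp.factorization_pow, Finsupp.single_apply]
    by_cases h : p = q
    · rw [if_pos h, if_pos h.symm]
    · rw [if_neg h, if_neg (fun h' => h h'.symm)]
  split_ifs with h
  · rw [← Finset.mul_prod_erase Q _ h, h1, if_pos rfl, Finset.prod_eq_one, mul_one]
    intro q hq
    rw [h1, if_neg (Finset.ne_of_mem_erase hq)]
    rfl
  · refine Finset.prod_eq_one fun q hq => ?_
    rw [h1, if_neg (fun h' : q = p => h (h' ▸ hq))]
    rfl

/-- the sum over the `Q`-smooth numbers. -/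
theorem smooth_sum (hQ : ∀ p ∈ Q, p.Prime) {s : ℝ} (hs : 0 ≤ s) (hs1 : s ≤ 1) (hx : ∀ p ∈ Q, r p ^ 2 / p ≤ 1 / 2)
    (S : Finset ℕ) (hS : ∀ n ∈ S, n ≠ 0 ∧ n.primeFactors ⊆ Q) :
    ∑ n ∈ S, ((HP Q r n).eval s) ^ 2 / n ≤
      Real.exp ((1 + s) ^ 2 * (∑ p ∈ Q, r p ^ 2 / p) + 9 / 2 * ∑ p ∈ Q, (r p ^ 2 / p) ^ 2) := by
  classical
  set f : ℕ → ℝ := fun n => ((HP Q r n).eval s) ^ 2 / n with hf
  have f1 : f 1 = 1 := by simp [hf, HP_one]
  have fmul : ∀ {m n : ℕ}, Nat.Coprime m n → f (m * n) = f m * f n := by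
    intro m n h
    rcases eq_or_ne m 0 with rfl | hm
    · simp [hf]
    rcases eq_or_ne n 0 with rfl | hn
    · simp [hf]
    simp only [hf]
    rw [HP_mul h hm hn, Polynomial.eval_mul, Nat.cast_mul]
    ring
  have fpow : ∀ {p : ℕ}, p.Prime → ∀ b : ℕ, f (p ^ b) =
      if p ∈ Q then (r p ^ 2 / p) ^ b * ee s b ^ 2 else ((p : ℝ)⁻¹) ^ b := by
    intro p hp b
    have hp0 : (0:ℝ) < p := by exact_mod_cast hp.pos
    simp only [hf]
    rw [HP_pow hQ hp]
    split_ifs with h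
    · rw [eval_gp, Nat.cast_pow, mul_pow, ← pow_mul, mul_comm b 2, pow_mul, sq_abs, div_pow]
      ring
    · simp
  have fsum : ∀ {p : ℕ}, p.Prime → Summable (fun b : ℕ => f (p ^ b)) := by
    intro p hp
    by_cases h : p ∈ Q
    · refine (loc (x := r p ^ 2 / p) hs hs1 (by positivity) (hx p h)).1.congr fun b => ?_
      rw [fpow hp, if_pos h]
    · have hp1 : (1:ℝ) < p := by exact_mod_cast hp.one_lt
      refine (summable_geometric_of_lt_one (r := (p : ℝ)⁻¹) (by positivity) (inv_lt_one_of_one_lt₀ hp1)).congr fun b => ?_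
      rw [fpow hp, if_neg h]
  have fnn : ∀ n, 0 ≤ f n := fun n => by simp only [hf]; positivity
  have hmain := (EulerProduct.summable_and_hasSum_factoredNumbers_prod_filter_prime_tsum f1 fmul
    (fun hp => (fsum hp).norm) Q).2
  have h1 : ∑ n ∈ S, f n = ∑ m ∈ S.subtype (fun m => m ∈ Nat.factoredNumbers Q), f m := by
    symm
    refine Finset.sum_subtype_of_mem f fun n hn => ?_
    exact Nat.mem_factoredNumbers_of_primeFactors_subset (hS n hn).1 (hS n hn).2
  have h2 : ∑ n ∈ S, f n ≤ ∏ p ∈ Q with p.Prime, ∑' n : ℕ, f (p ^ n) := by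
    rw [h1]
    exact sum_le_hasSum _ (fun i _ => fnn _) hmain
  refine h2.trans ?_
  rw [Finset.filter_true_of_mem hQ]
  calc ∏ p ∈ Q, ∑' n : ℕ, f (p ^ n) ≤ ∏ p ∈ Q, Real.exp ((1 + s) ^ 2 * (r p ^ 2 / p) + 9 / 2 * (r p ^ 2 / p) ^ 2) := by
        refine Finset.prod_le_prod (fun p _ => tsum_nonneg fun n => fnn _) fun p hp => ?_
        have h3 := (loc (x := r p ^ 2 / p) hs hs1 (by positivity) (hx p hp)).2
        refine le_trans (le_of_eq ?_) h3
        refine tsum_congr fun b => ?_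
        rw [fpow (hQ p hp), if_pos hp]
    _ = _ := by
        rw [← Real.exp_sum, Finset.sum_add_distrib, Finset.mul_sum, Finset.mul_sum]

/-- the diagonal of `|R P^k|²` -/
theorem Vr_bk {M L : ℕ} (hQ : ∀ p ∈ Q, p.Prime ∧ p ≤ L) (ha : ∀ n, a n ≠ 0 → 1 ≤ n ∧ n ≤ M ∧ n.primeFactors ⊆ Q)
    (ha2 : ∀ n, n ≠ 0 → |a n| ≤ (HP Q r n).coeff 0) {s : ℝ} (hs : 0 < s) (hs1 : s ≤ 1) (hx : ∀ p ∈ Q, r p ^ 2 / p ≤ 1 / 2)
    (k N : ℕ) :
    Vr (bk Q r a k) N ≤ (k.factorial / s ^ k) ^ 2 *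
      Real.exp ((1 + s) ^ 2 * (∑ p ∈ Q, r p ^ 2 / p) + 9 / 2 * ∑ p ∈ Q, (r p ^ 2 / p) ^ 2) := by
  classical
  unfold Vr
  have h1 : ∑ n ∈ Finset.Icc 1 N, bk Q r a k n ^ 2 / n =
      ∑ n ∈ (Finset.Icc 1 N).filter (fun n => bk Q r a k n ≠ 0), bk Q r a k n ^ 2 / n := by
    rw [Finset.sum_filter]
    refine Finset.sum_congr rfl fun n _ => ?_
    split_ifs with h
    · rfl
    · rw [not_not.mp h]; simp
  rw [h1]
  have h2 := smooth_sum (r := r) (fun p hp => (hQ p hp).1) hs.le hs1 hx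
    ((Finset.Icc 1 N).filter (fun n => bk Q r a k n ≠ 0)) (fun n hn => by
      have := bk_supp hQ ha k n (Finset.mem_filter.mp hn).2
      exact ⟨by omega, this.2.2⟩)
  calc ∑ n ∈ (Finset.Icc 1 N).filter (fun n => bk Q r a k n ≠ 0), bk Q r a k n ^ 2 / n ≤
      ∑ n ∈ (Finset.Icc 1 N).filter (fun n => bk Q r a k n ≠ 0), (k.factorial / s ^ k) ^ 2 *
        (((HP Q r n).eval s) ^ 2 / n) := by
        refine Finset.sum_le_sum fun n hn => ?_
        have hn1 : n ≠ 0 := by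
          have := bk_supp hQ ha k n (Finset.mem_filter.mp hn).2
          omega
        have h3 := bk_le (a := a) (r := r) (fun p hp => (hQ p hp).1) ha2 k n hn1
        have h4 := coeff_le_eval (NN_HP (Q := Q) (r := r) n) hs.le k
        have h5 : |bk Q r a k n| ≤ k.factorial / s ^ k * (HP Q r n).eval s := by
          refine h3.trans ?_
          have hsk : 0 < s ^ k := by positivity
          rw [div_mul_eq_mul_div, le_div_iff₀ hsk]
          calc (k.factorial : ℝ) * (HP Q r n).coeff k * s ^ k = k.factorial * ((HP Q r n).coeff k * s ^ k) := by ring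
            _ ≤ k.factorial * (HP Q r n).eval s := by gcongr
        have h6 : bk Q r a k n ^ 2 ≤ (k.factorial / s ^ k * (HP Q r n).eval s) ^ 2 := by
          rw [← sq_abs]
          exact pow_le_pow_left₀ (abs_nonneg _) h5 2
        have hn0 : (0:ℝ) < n := by exact_mod_cast Nat.pos_of_ne_zero hn1
        calc bk Q r a k n ^ 2 / n ≤ (k.factorial / s ^ k * (HP Q r n).eval s) ^ 2 / n := by gcongr
          _ = _ := by ring
    _ = (k.factorial / s ^ k) ^ 2 * ∑ n ∈ (Finset.Icc 1 N).filter (fun n => bk Q r a k n ≠ 0),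
        ((HP Q r n).eval s) ^ 2 / n := by rw [Finset.mul_sum]
    _ ≤ _ := by gcongr

end Pool.Agent.Helper26.UW
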