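import Pool.Agent.Helper60.UV.Gen
import Mathlib

/-!
# UW-T2, general part: coefficients of `R P^k`, `P` a prime sum

`bk Q r a k` are the coefficients of `R P^k`, `R` with coefficients `a`, `P = ∑_{p ∈ Q} r_p p^(-s)`. They are compared with
`k!` times the coefficient of `z^k` in `∏_p |r_p|^(a_p) (z^(a_p)/a_p! + z^(a_p-1)/(a_p-1)!)`.
-/

set_option autoImplicit false
open MeasureTheory Set Filter Topology

namespace Pool.Agent.Helper26.UW
open Pool.Agent.Helper60.UV (Rr Vr Ar)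

/-- Coefficients of `R P^k`. -/
noncomputable def bk (Q : Finset ℕ) (r a : ℕ → ℝ) : ℕ → ℕ → ℝ
  | 0, n => a n
  | (k + 1), n => ∑ p ∈ Q.filter (· ∣ n), r p * bk Q r a k (n / p)

variable {Q : Finset ℕ} {r a : ℕ → ℝ}

lemma bk_zero (n : ℕ) : bk Q r a 0 n = a n := rfl

lemma bk_succ (k n : ℕ) : bk Q r a (k + 1) n = ∑ p ∈ Q.filter (· ∣ n), r p * bk Q r a k (n / p) := rfl

/-- support of the coefficients. -/
lemma bk_supp {M L : ℕ} (hQ : ∀ p ∈ Q, p.Prime ∧ p ≤ L) (ha : ∀ n, a n ≠ 0 → 1 ≤ n ∧ n ≤ M ∧ n.primeFactors ⊆ Q) (k : ℕ) :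
    ∀ n, bk Q r a k n ≠ 0 → 1 ≤ n ∧ n ≤ M * L ^ k ∧ n.primeFactors ⊆ Q := by
  induction k with
  | zero =>
    intro n hn
    simpa using ha n hn
  | succ k ih =>
    intro n hn
    rw [bk_succ] at hn
    obtain ⟨p, hp, hne⟩ := Finset.exists_ne_zero_of_sum_ne_zero hn
    obtain ⟨hpQ, hpn⟩ := Finset.mem_filter.mp hp
    obtain ⟨m, rfl⟩ := hpn
    have hp0 : 0 < p := (hQ p hpQ).1.pos
    rw [Nat.mul_div_cancel_left m hp0] at hne
    obtain ⟨h1, h2, h3⟩ := ih m (right_ne_zero_of_mul hne)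
    refine ⟨Nat.mul_pos hp0 h1, ?_, ?_⟩
    · calc p * m ≤ L * (M * L ^ k) := Nat.mul_le_mul (hQ p hpQ).2 h2
        _ = M * L ^ (k + 1) := by ring
    · rw [Nat.primeFactors_mul hp0.ne' (by omega), (hQ p hpQ).1.primeFactors]
      exact Finset.union_subset (Finset.singleton_subset_iff.mpr hpQ) h3

/-- the product of a Dirichlet polynomial and a prime sum. -/
theorem Rr_mul {M L : ℕ} (hQ : ∀ p ∈ Q, p.Prime ∧ p ≤ L) {b : ℕ → ℝ} (hb : ∀ n, b n ≠ 0 → 1 ≤ n ∧ n ≤ M) (t : ℝ) :
    Rr (fun n => ∑ p ∈ Q.filter (· ∣ n), r p * b (n / p)) (M * L) t =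
      Rr b M t * ∑ p ∈ Q, (r p : ℂ) * (p : ℂ) ^ (-((1 / 2 : ℂ) + (t : ℂ) * Complex.I)) := by
  unfold Rr
  set w : ℂ := -((1 / 2 : ℂ) + (t : ℂ) * Complex.I) with hw
  rw [Finset.sum_mul_sum, Finset.sum_comm]
  have h1 : ∀ n ∈ Finset.Icc 1 (M * L), ((∑ p ∈ Q.filter (· ∣ n), r p * b (n / p) : ℝ) : ℂ) * (n : ℂ) ^ w =
      ∑ p ∈ Q, (if p ∣ n then ((r p * b (n / p) : ℝ) : ℂ) * (n : ℂ) ^ w else 0) := by
    intro n _
    rw [← Finset.sum_filter, Complex.ofReal_sum, Finset.sum_mul]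
  rw [Finset.sum_congr rfl h1, Finset.sum_comm]
  refine Finset.sum_congr rfl fun p hp => ?_
  have hp0 : 0 < p := (hQ p hp).1.pos
  have hinj : Function.Injective (fun m : ℕ => p * m) := fun x y h => Nat.eq_of_mul_eq_mul_left hp0 h
  have h2 : ∑ m ∈ Finset.Icc 1 M, (b m : ℂ) * (m : ℂ) ^ w * ((r p : ℂ) * (p : ℂ) ^ w) =
      ∑ n ∈ (Finset.Icc 1 M).image (fun m => p * m), (if p ∣ n then ((r p * b (n / p) : ℝ) : ℂ) * (n : ℂ) ^ w else 0) := by
    rw [Finset.sum_image (fun x _ y _ h => hinj h)]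
    refine Finset.sum_congr rfl fun m _ => ?_
    rw [if_pos (Dvd.intro _ rfl), Nat.mul_div_cancel_left m hp0, Nat.cast_mul, Complex.natCast_mul_natCast_cpow]
    push_cast
    ring
  rw [h2]
  symm
  refine Finset.sum_subset ?_ ?_
  · intro n hn
    obtain ⟨m, hm, rfl⟩ := Finset.mem_image.mp hn
    obtain ⟨m1, m2⟩ := Finset.mem_Icc.mp hm
    refine Finset.mem_Icc.mpr ⟨Nat.mul_pos hp0 m1, ?_⟩
    calc p * m ≤ L * M := Nat.mul_le_mul (hQ p hp).2 m2
      _ = M * L := mul_comm _ _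
  · intro n hn hn2
    split_ifs with hd
    · obtain ⟨m, rfl⟩ := hd
      rw [Nat.mul_div_cancel_left m hp0]
      have : b m = 0 := by
        by_contra hne
        obtain ⟨m1, m2⟩ := hb m hne
        exact hn2 (Finset.mem_image.mpr ⟨m, Finset.mem_Icc.mpr ⟨m1, m2⟩, rfl⟩)
      rw [this]
      simp
    · rfl

/-- `R P^k` -/
theorem Rr_pow {M L : ℕ} (hQ : ∀ p ∈ Q, p.Prime ∧ p ≤ L) (ha : ∀ n, a n ≠ 0 → 1 ≤ n ∧ n ≤ M ∧ n.primeFactors ⊆ Q)
    (t : ℝ) (k : ℕ) :
    Rr (bk Q r a k) (M * L ^ k) t =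
      Rr a M t * (∑ p ∈ Q, (r p : ℂ) * (p : ℂ) ^ (-((1 / 2 : ℂ) + (t : ℂ) * Complex.I))) ^ k := by
  induction k with
  | zero => simp only [pow_zero, mul_one]; rfl
  | succ k ih =>
    have h := Rr_mul (r := r) hQ (b := bk Q r a k) (M := M * L ^ k) (fun n hn => by
      have := bk_supp hQ ha k n hn
      exact ⟨this.1, this.2.1⟩) t
    have e : M * L ^ (k + 1) = M * L ^ k * L := by ring
    rw [e]
    calc Rr (bk Q r a (k + 1)) (M * L ^ k * L) t =
        Rr (fun n => ∑ p ∈ Q.filter (· ∣ n), r p * bk Q r a k (n / p)) (M * L ^ k * L) t := rfl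
      _ = _ := by rw [h, ih]; ring

/-- trivial bound. -/
lemma bk_triv {B V : ℝ} (hB : ∀ n, |a n| ≤ B) (hV : 0 ≤ V) (hr : ∀ p ∈ Q, |r p| ≤ V) (k n : ℕ) :
    |bk Q r a k n| ≤ (Q.card * V) ^ k * B := by
  induction k generalizing n with
  | zero => simpa [bk] using hB n
  | succ k ih =>
    have hB0 : 0 ≤ B := (abs_nonneg _).trans (hB 0)
    rw [bk_succ]
    calc |∑ p ∈ Q.filter (· ∣ n), r p * bk Q r a k (n / p)| ≤ ∑ p ∈ Q.filter (· ∣ n), |r p * bk Q r a k (n / p)| :=
          Finset.abs_sum_le_sum_abs _ _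
      _ ≤ ∑ p ∈ Q.filter (· ∣ n), V * ((Q.card * V) ^ k * B) := by
          refine Finset.sum_le_sum fun p hp => ?_
          rw [abs_mul]
          exact mul_le_mul (hr p (Finset.mem_filter.mp hp).1) (ih _) (abs_nonneg _) hV
      _ ≤ ∑ p ∈ Q, V * ((Q.card * V) ^ k * B) := by
          refine Finset.sum_le_sum_of_subset_of_nonneg (Finset.filter_subset _ _) fun _ _ _ => by positivity
      _ = (Q.card * V) ^ (k + 1) * B := by rw [Finset.sum_const, nsmul_eq_mul]; ring

/-! ### the generating polynomials -/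

open Polynomial in
/-- `|r_p|^a (X^a/a! + X^(a-1)/(a-1)!)` -/
noncomputable def gp (r : ℕ → ℝ) (p : ℕ) : ℕ → ℝ[X]
  | 0 => 1
  | (a + 1) => C (|r p| ^ (a + 1)) * (C (((a + 1).factorial : ℝ)⁻¹) * X ^ (a + 1) + C ((a.factorial : ℝ)⁻¹) * X ^ a)

/-- product over the primes of `Q`. -/
noncomputable def HP (Q : Finset ℕ) (r : ℕ → ℝ) (n : ℕ) : Polynomial ℝ := ∏ p ∈ Q, gp r p (n.factorization p)

open Polynomial in
lemma deriv_gp (p a : ℕ) : derivative (gp r p (a + 1)) = C |r p| * gp r p a := by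
  have hf : ∀ m : ℕ, ((m + 1).factorial : ℝ)⁻¹ * ((m : ℝ) + 1) = (m.factorial : ℝ)⁻¹ := by
    intro m
    have h1 : ((m + 1).factorial : ℝ) = (m + 1) * m.factorial := by rw [Nat.factorial_succ]; push_cast; ring
    have h2 : (m.factorial : ℝ) ≠ 0 := by positivity
    have h3 : (m : ℝ) + 1 ≠ 0 := by positivity
    rw [h1]
    field_simp
  cases a with
  | zero =>
    simp only [gp, Nat.factorial, zero_add, pow_one, pow_zero, mul_one, Nat.cast_one, inv_one, map_one, one_mul,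
      derivative_mul, derivative_C, zero_mul, derivative_add, derivative_X, derivative_one, add_zero]
  | succ a =>
    simp only [gp, derivative_mul, derivative_C, zero_mul, zero_add, derivative_add, derivative_X_pow,
      Nat.add_sub_cancel]
    have e1 : C (((a + 1 + 1).factorial : ℝ)⁻¹) * (C (((a + 1 + 1 : ℕ) : ℝ)) * X ^ (a + 1)) =
        C (((a + 1).factorial : ℝ)⁻¹) * X ^ (a + 1) := by
      rw [← mul_assoc, ← C_mul]
      congr 2
      have := hf (a + 1)
      push_cast at this ⊢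
      linarith
    have e2 : C (((a + 1).factorial : ℝ)⁻¹) * (C (((a + 1 : ℕ) : ℝ)) * X ^ a) = C ((a.factorial : ℝ)⁻¹) * X ^ a := by
      rw [← mul_assoc, ← C_mul]
      congr 2
      have := hf a
      push_cast at this ⊢
      linarith
    rw [e1, e2, ← mul_assoc, ← C_mul]
    congr 2
    ring

lemma deriv_gp_zero (p : ℕ) : Polynomial.derivative (gp r p 0) = 0 := by
  simp [gp]

open Polynomial in
lemma deriv_HP (hQ : ∀ p ∈ Q, p.Prime) {n : ℕ} (hn : n ≠ 0) :
    derivative (HP Q r n) = ∑ p ∈ Q.filter (· ∣ n), C |r p| * HP Q r (n / p) := by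
  classical
  unfold HP
  rw [derivative_prod_finset, Finset.sum_filter]
  refine Finset.sum_congr rfl fun p hp => ?_
  have hpp := hQ p hp
  split_ifs with hd
  · obtain ⟨m, rfl⟩ := hd
    have hm : m ≠ 0 := right_ne_zero_of_mul hn
    rw [Nat.mul_div_cancel_left m hpp.pos]
    have hfac : ∀ q, (p * m).factorization q = (if q = p then 1 else 0) + m.factorization q := by
      intro q
      rw [Nat.factorization_mul hpp.ne_zero hm, Finsupp.add_apply, hpp.factorization, Finsupp.single_apply]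
      congr 1
      by_cases h : p = q
      · rw [if_pos h, if_pos h.symm]
      · rw [if_neg h, if_neg (fun h' => h h'.symm)]
    have e1 : gp r p ((p * m).factorization p) = gp r p (m.factorization p + 1) := by
      rw [hfac, if_pos rfl, add_comm]
    have e2 : ∏ q ∈ Q.erase p, gp r q ((p * m).factorization q) = ∏ q ∈ Q.erase p, gp r q (m.factorization q) := by
      refine Finset.prod_congr rfl fun q hq => ?_
      rw [hfac, if_neg (Finset.ne_of_mem_erase hq), zero_add]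
    rw [e1, e2, deriv_gp, ← Finset.mul_prod_erase Q _ hp]
    ring
  · have e0 : n.factorization p = 0 := Nat.factorization_eq_zero_of_not_dvd hd
    rw [e0, deriv_gp_zero, mul_zero]

/-- nonnegative coefficients -/
def NN (f : Polynomial ℝ) : Prop := ∀ i, 0 ≤ f.coeff i

lemma NN.mul {f g : Polynomial ℝ} (hf : NN f) (hg : NN g) : NN (f * g) := by
  intro i
  rw [Polynomial.coeff_mul]
  exact Finset.sum_nonneg fun x _ => mul_nonneg (hf _) (hg _)

lemma NN.add {f g : Polynomial ℝ} (hf : NN f) (hg : NN g) : NN (f + g) := by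
  intro i
  rw [Polynomial.coeff_add]
  exact add_nonneg (hf _) (hg _)

lemma NN_C {x : ℝ} (hx : 0 ≤ x) : NN (Polynomial.C x) := by
  intro i
  rw [Polynomial.coeff_C]
  split_ifs
  · exact hx
  · exact le_rfl

lemma NN_X_pow (a : ℕ) : NN ((Polynomial.X : Polynomial ℝ) ^ a) := by
  intro i
  rw [Polynomial.coeff_X_pow]
  split_ifs
  · exact zero_le_one
  · exact le_rfl

lemma NN_one : NN (1 : Polynomial ℝ) := by
  have := NN_C (show (0:ℝ) ≤ 1 by norm_num)
  rwa [Polynomial.C_1] at this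

lemma NN_gp (p a : ℕ) : NN (gp r p a) := by
  cases a with
  | zero => exact NN_one
  | succ a =>
    simp only [gp]
    exact (NN_C (by positivity)).mul (((NN_C (by positivity)).mul (NN_X_pow _)).add ((NN_C (by positivity)).mul (NN_X_pow _)))

lemma NN_HP (n : ℕ) : NN (HP Q r n) := by
  classical
  unfold HP
  induction Q using Finset.induction with
  | empty => simpa using NN_one
  | insert p s hp ih => rw [Finset.prod_insert hp]; exact (NN_gp p _).mul ih

lemma coeff_le_eval {f : Polynomial ℝ} (hf : NN f) {s : ℝ} (hs : 0 ≤ s) (k : ℕ) : f.coeff k * s ^ k ≤ f.eval s := by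
  rw [Polynomial.eval_eq_sum_range]
  by_cases hk : k ∈ Finset.range (f.natDegree + 1)
  · exact Finset.single_le_sum (f := fun i => f.coeff i * s ^ i) (fun i _ => mul_nonneg (hf i) (by positivity)) hk
  · have : f.coeff k = 0 := by
      apply Polynomial.coeff_eq_zero_of_natDegree_lt
      rw [Finset.mem_range] at hk
      omega
    rw [this, zero_mul]
    exact Finset.sum_nonneg fun i _ => mul_nonneg (hf i) (by positivity)

/-- comparison of the coefficients. -/
theorem bk_le (hQ : ∀ p ∈ Q, p.Prime) (ha : ∀ n, n ≠ 0 → |a n| ≤ (HP Q r n).coeff 0) (k : ℕ) :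
    ∀ n, n ≠ 0 → |bk Q r a k n| ≤ k.factorial * (HP Q r n).coeff k := by
  induction k with
  | zero =>
    intro n hn
    simpa [bk] using ha n hn
  | succ k ih =>
    intro n hn
    have h1 : (HP Q r n).coeff (k + 1) * ((k : ℝ) + 1) = ∑ p ∈ Q.filter (· ∣ n), |r p| * (HP Q r (n / p)).coeff k := by
      have h := congrArg (fun f => Polynomial.coeff f k) (deriv_HP (r := r) hQ hn)
      simp only [Polynomial.coeff_derivative, Polynomial.finsetSum_coeff, Polynomial.coeff_C_mul] at h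
      exact h
    rw [bk_succ]
    calc |∑ p ∈ Q.filter (· ∣ n), r p * bk Q r a k (n / p)| ≤ ∑ p ∈ Q.filter (· ∣ n), |r p * bk Q r a k (n / p)| :=
          Finset.abs_sum_le_sum_abs _ _
      _ ≤ ∑ p ∈ Q.filter (· ∣ n), |r p| * (k.factorial * (HP Q r (n / p)).coeff k) := by
          refine Finset.sum_le_sum fun p hp => ?_
          obtain ⟨hpQ, m, rfl⟩ := Finset.mem_filter.mp hp
          rw [abs_mul, Nat.mul_div_cancel_left m (hQ p hpQ).pos]
          exact mul_le_mul_of_nonneg_left (ih m (right_ne_zero_of_mul hn)) (abs_nonneg _)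
      _ = k.factorial * ∑ p ∈ Q.filter (· ∣ n), |r p| * (HP Q r (n / p)).coeff k := by
          rw [Finset.mul_sum]
          exact Finset.sum_congr rfl fun p _ => by ring
      _ = (k + 1).factorial * (HP Q r n).coeff (k + 1) := by
          rw [← h1, Nat.factorial_succ]
          push_cast
          ring

end Pool.Agent.Helper26.UW
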